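import Mathlib

/-!
# MP_b1d502_nt: mixed loneliness parameter spaces are not finitely determined

For every `k ≥ 3` and every finite family `F` of speed sets of length `k`, the set
`⋂_{s ∈ F} A(s)` strictly contains `MLPS_k`.
-/

namespace Pool.Agent.Results.MP_b1d502_nt.NotFinDet

/-- Distance from a real number to the nearest integer. -/
noncomputable def distInt (x : ℝ) : ℝ := |x - round x|

/-- Speed sets of length `k`: tuples of pairwise distinct positive integers. -/
def IsSpeedSet {k : ℕ} (s : Fin k → ℕ) : Prop := Function.Injective s ∧ ∀ i, 0 < s i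

/-- The box `(0, 1/2]^k`. -/
def box (k : ℕ) : Set (Fin k → ℝ) := {d | ∀ i, 0 < d i ∧ d i ≤ 1 / 2}

/-- `A(s)`: the parameters in the box for which the speeds `s` admit a suitable time. -/
def A {k : ℕ} (s : Fin k → ℕ) : Set (Fin k → ℝ) :=
  {d | d ∈ box k ∧ ∃ t : ℝ, ∀ i, d i ≤ distInt ((s i : ℝ) * t)}

/-- The mixed loneliness parameter space. -/
def MLPS (k : ℕ) : Set (Fin k → ℝ) := {d | d ∈ box k ∧ ∀ s : Fin k → ℕ, IsSpeedSet s → d ∈ A s}

/-- The intersection of the sets `A(s)`, `s ∈ F`, inside the box. -/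
def interA {k : ℕ} (F : Set (Fin k → ℕ)) : Set (Fin k → ℝ) := {d | d ∈ box k ∧ ∀ s ∈ F, d ∈ A s}

lemma distInt_nonneg (x : ℝ) : 0 ≤ distInt x := abs_nonneg _

lemma distInt_le (x : ℝ) (m : ℤ) : distInt x ≤ |x - m| := round_le x m

lemma le_distInt {x c : ℝ} (h : ∀ m : ℤ, c ≤ |x - m|) : c ≤ distInt x := h _

lemma distInt_eq_norm (x : ℝ) : distInt x = ‖(x : UnitAddCircle)‖ := (UnitAddCircle.norm_eq).symm

lemma continuous_distInt : Continuous distInt := by
  have : distInt = fun x : ℝ => ‖(x : UnitAddCircle)‖ := funext distInt_eq_norm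
  rw [this]
  exact continuous_norm.comp (AddCircle.continuous_mk' 1)

lemma distInt_add_int (x : ℝ) (m : ℤ) : distInt (x + m) = distInt x := by
  unfold distInt
  rw [round_add_intCast]
  push_cast
  congr 1
  ring

lemma distInt_neg (x : ℝ) : distInt (-x) = distInt x := by
  rw [distInt_eq_norm, distInt_eq_norm, AddCircle.coe_neg, norm_neg]

lemma distInt_of_mem {x : ℝ} (h1 : 0 ≤ x) (h2 : x ≤ 1 / 2) : distInt x = x := by
  apply le_antisymm
  · have := distInt_le x 0
    simpa [abs_of_nonneg h1] using this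
  · apply le_distInt
    intro m
    rcases le_or_gt m 0 with h | h
    · have : (m : ℝ) ≤ 0 := by exact_mod_cast h
      rw [abs_of_nonneg (by linarith)]
      linarith
    · have : (1 : ℝ) ≤ m := by exact_mod_cast h
      rw [abs_of_nonpos (by linarith)]
      linarith

lemma distInt_add_le (x y : ℝ) : distInt (x + y) ≤ distInt x + distInt y := by
  simp only [distInt_eq_norm, AddCircle.coe_add]
  exact norm_add_le _ _

lemma distInt_nat_mul (n : ℕ) (x : ℝ) : distInt (n * x) ≤ n * distInt x := by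
  induction n with
  | zero => simp [distInt]
  | succ n ih =>
    have h := distInt_add_le (n * x) x
    push_cast
    rw [add_mul, one_mul, add_mul, one_mul]
    linarith

/-- Two runners: the pair `(1/2 - δ, 2δ)` is feasible for all pairs of distinct speeds. -/
lemma two_runners (δ : ℝ) (h0 : 0 < δ) (h1 : δ ≤ 1 / 8) (a b : ℕ) (ha : 0 < a) (hb : 0 < b)
    (hab : a ≠ b) : ∃ t : ℝ, 1 / 2 - δ ≤ distInt ((a : ℝ) * t) ∧ 2 * δ ≤ distInt ((b : ℝ) * t) := by
  -- coprime case first
  have main : ∀ a b : ℕ, 0 < a → 0 < b → a ≠ b → Nat.Coprime a b →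
      ∃ t : ℝ, 1 / 2 - δ ≤ distInt ((a : ℝ) * t) ∧ 2 * δ ≤ distInt ((b : ℝ) * t) := by
    intro a b ha hb hab hco
    have haR : (0 : ℝ) < a := by exact_mod_cast ha
    have hbR : (0 : ℝ) < b := by exact_mod_cast hb
    rcases Nat.lt_or_ge 1 a with ha2 | ha1
    · -- a ≥ 2
      have ha2R : (2 : ℝ) ≤ a := by exact_mod_cast ha2
      set i : ℤ := ⌈(a : ℝ) / 4 - b / 2⌉ with hi
      have hi1 : (a : ℝ) / 4 - b / 2 ≤ i := Int.le_ceil _
      have hi2 : (i : ℝ) < (a : ℝ) / 4 - b / 2 + 1 := Int.ceil_lt_add_one _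
      -- Bezout
      obtain ⟨j, m, hjm⟩ : ∃ j m : ℤ, j * b = i + m * a := by
        have hbez := Nat.gcd_eq_gcd_ab a b
        rw [hco.gcd_eq_one] at hbez
        push_cast at hbez
        refine ⟨i * Nat.gcdB a b, -(i * Nat.gcdA a b), ?_⟩
        linear_combination (-i) * hbez
      refine ⟨(2 * j + 1) / (2 * a), ?_, ?_⟩
      · apply le_distInt
        intro n
        have : (a : ℝ) * ((2 * j + 1) / (2 * a)) - n = ((j - n : ℤ) : ℝ) + 1 / 2 := by
          push_cast
          field_simp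
          ring
        rw [this]
        rcases le_or_gt 0 (j - n) with h | h
        · have : (0 : ℝ) ≤ ((j - n : ℤ) : ℝ) := by exact_mod_cast h
          rw [abs_of_nonneg (by linarith)]
          linarith
        · have : ((j - n : ℤ) : ℝ) ≤ -1 := by
            have : j - n ≤ -1 := by omega
            exact_mod_cast this
          rw [abs_of_nonpos (by linarith)]
          linarith
      · apply le_distInt
        intro n
        have hjmR : (j : ℝ) * b = i + m * a := by exact_mod_cast hjm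
        have : (b : ℝ) * ((2 * j + 1) / (2 * a)) - n =
            (b / 2 + i) / a + ((m - n : ℤ) : ℝ) := by
          push_cast
          field_simp
          linear_combination 2 * hjmR
        rw [this]
        have h3 : 1 / 4 ≤ ((b : ℝ) / 2 + i) / a := by
          rw [le_div_iff₀ haR]; linarith
        have h4 : ((b : ℝ) / 2 + i) / a ≤ 3 / 4 := by
          rw [div_le_iff₀ haR]; linarith
        rcases le_or_gt 0 (m - n) with h | h
        · have : (0 : ℝ) ≤ ((m - n : ℤ) : ℝ) := by exact_mod_cast h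
          rw [abs_of_nonneg (by linarith)]
          linarith
        · have : ((m - n : ℤ) : ℝ) ≤ -1 := by
            have : m - n ≤ -1 := by omega
            exact_mod_cast this
          rw [abs_of_nonpos (by linarith)]
          linarith
    · -- a = 1
      have ha' : a = 1 := by omega
      subst ha'
      have hb2 : 2 ≤ b := by omega
      have hb2R : (2 : ℝ) ≤ b := by exact_mod_cast hb2
      rcases Nat.even_or_odd b with hev | hodd
      · obtain ⟨c, hc⟩ := hev
        refine ⟨1 / 2 + 2 * δ / b, ?_, ?_⟩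
        · have h5 : 2 * δ / b ≤ δ := by
            rw [div_le_iff₀ hbR]; nlinarith
          have h6 : 0 < 2 * δ / b := by positivity
          have : ((1 : ℕ) : ℝ) * (1 / 2 + 2 * δ / b) = -(1 / 2 - 2 * δ / b) + (1 : ℤ) := by
            push_cast; ring
          rw [this, distInt_add_int, distInt_neg, distInt_of_mem (by linarith) (by linarith)]
          linarith
        · have : (b : ℝ) * (1 / 2 + 2 * δ / b) = 2 * δ + ((c : ℤ) : ℝ) := by
            have : (b : ℝ) = c + c := by exact_mod_cast hc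
            rw [mul_add, mul_div_cancel₀ _ hbR.ne', this]
            push_cast
            ring
          rw [this, distInt_add_int, distInt_of_mem (by linarith) (by linarith)]
      · obtain ⟨c, hc⟩ := hodd
        refine ⟨1 / 2, ?_, ?_⟩
        · have : ((1 : ℕ) : ℝ) * (1 / 2) = 1 / 2 := by push_cast; ring
          rw [this, distInt_of_mem (by norm_num) le_rfl]
          linarith
        · have : (b : ℝ) * (1 / 2) = 1 / 2 + ((c : ℤ) : ℝ) := by
            have : (b : ℝ) = 2 * c + 1 := by exact_mod_cast hc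
            rw [this]; push_cast; ring
          rw [this, distInt_add_int, distInt_of_mem (by norm_num) le_rfl]
          linarith
  -- general case
  obtain ⟨g, a', b', hg0, hco, rfl, rfl⟩ : ∃ g a' b' : ℕ, 0 < g ∧ Nat.Coprime a' b' ∧
      a = g * a' ∧ b = g * b' := by
    obtain ⟨a', b', hco, h1, h2⟩ := Nat.exists_coprime a b
    exact ⟨Nat.gcd a b, a', b', Nat.gcd_pos_of_pos_left _ ha, hco, by rw [mul_comm]; exact h1,
      by rw [mul_comm]; exact h2⟩
  have ha' : 0 < a' := Nat.pos_of_mul_pos_left ha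
  have hb' : 0 < b' := Nat.pos_of_mul_pos_left hb
  obtain ⟨t, ht1, ht2⟩ := main a' b' ha' hb' (fun h => hab (by rw [h])) hco
  have hgR : (g : ℝ) ≠ 0 := by exact_mod_cast hg0.ne'
  refine ⟨t / g, ?_, ?_⟩
  · have : ((g * a' : ℕ) : ℝ) * (t / g) = a' * t := by push_cast; field_simp
    rw [this]; exact ht1
  · have : ((g * b' : ℕ) : ℝ) * (t / g) = b' * t := by push_cast; field_simp
    rw [this]; exact ht2

/-- Two runners at an irrational time. -/
lemma two_runners_irrational (δ : ℝ) (h0 : 0 < δ) (h1 : δ ≤ 1 / 8) (hδ : Irrational δ) (a b : ℕ)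
    (ha : 0 < a) (hb : 0 < b) (hab : a ≠ b) :
    ∃ t : ℝ, Irrational t ∧ 1 / 2 - δ ≤ distInt ((a : ℝ) * t) ∧
      2 * δ ≤ distInt ((b : ℝ) * t) := by
  obtain ⟨t0, ht1, ht2⟩ := two_runners δ h0 h1 a b ha hb hab
  set φ : ℝ → ℝ := fun t => min (distInt (a * t) - (1 / 2 - δ)) (distInt (b * t) - 2 * δ) with hφ
  have hcont : Continuous φ := by
    apply Continuous.min
    · exact (continuous_distInt.comp (continuous_const.mul continuous_id)).sub continuous_const
    · exact (continuous_distInt.comp (continuous_const.mul continuous_id)).sub continuous_const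
  have hφ0 : φ 0 < 0 := by
    refine min_lt_of_left_lt ?_
    have : distInt ((a : ℝ) * 0) = 0 := by rw [mul_zero]; simp [distInt]
    rw [this]; linarith
  have hφ1 : 0 ≤ φ t0 := le_min (by linarith) (by linarith)
  obtain ⟨t, ht⟩ : ∃ t, φ t = 0 := by
    have := mem_range_of_exists_le_of_exists_ge hcont ⟨0, hφ0.le⟩ ⟨t0, hφ1⟩
    exact this
  have hmin : min (distInt (a * t) - (1 / 2 - δ)) (distInt (b * t) - 2 * δ) = 0 := ht
  have hA : 0 ≤ distInt (a * t) - (1 / 2 - δ) := by rw [← hmin]; exact min_le_left _ _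
  have hB : 0 ≤ distInt (b * t) - 2 * δ := by rw [← hmin]; exact min_le_right _ _
  refine ⟨t, ?_, by linarith, by linarith⟩
  rintro ⟨r, rfl⟩
  apply hδ
  rcases min_choice (distInt ((a : ℝ) * (r : ℝ)) - (1 / 2 - δ))
    (distInt ((b : ℝ) * (r : ℝ)) - 2 * δ) with h | h
  · rw [h] at hmin
    refine ⟨1 / 2 - |(a : ℚ) * r - round ((a : ℝ) * (r : ℝ))|, ?_⟩
    have : distInt ((a : ℝ) * (r : ℝ)) = 1 / 2 - δ := by linarith
    rw [distInt] at this
    push_cast
    linarith
  · rw [h] at hmin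
    refine ⟨|(b : ℚ) * r - round ((b : ℝ) * (r : ℝ))| / 2, ?_⟩
    have : distInt ((b : ℝ) * (r : ℝ)) = 2 * δ := by linarith
    rw [distInt] at this
    push_cast
    linarith

lemma distInt_pos_of_irrational {t : ℝ} (ht : Irrational t) {n : ℕ} (hn : 0 < n) :
    0 < distInt ((n : ℝ) * t) := by
  rcases (distInt_nonneg ((n : ℝ) * t)).eq_or_lt with h | h
  · exfalso
    have h1 : (n : ℝ) * t - round ((n : ℝ) * t) = 0 := by
      rw [distInt] at h
      exact abs_eq_zero.mp h.symm
    apply (ht.natCast_mul hn.ne')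
    exact ⟨round ((n : ℝ) * t), by push_cast; linarith⟩
  · exact h

/-- The family of points used in the proof. -/
noncomputable def pt (k : ℕ) (δ ε : ℝ) : Fin k → ℝ :=
  fun i => if (i : ℕ) = 0 then 1 / 2 - δ else if (i : ℕ) = 1 then 2 * δ else ε

lemma pt_mem_box (k : ℕ) {δ ε : ℝ} (h0 : 0 < δ) (h1 : δ ≤ 1 / 8) (hε : 0 < ε) (hε2 : ε ≤ 1 / 2) :
    pt k δ ε ∈ box k := by
  intro i
  unfold pt
  split_ifs
  · constructor <;> linarith
  · constructor <;> linarith
  · exact ⟨hε, hε2⟩

/-- For one speed set, all small `ε` work. -/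
lemma exists_eps (k : ℕ) (hk : 3 ≤ k) (δ : ℝ) (h0 : 0 < δ) (h1 : δ ≤ 1 / 8) (hδ : Irrational δ)
    (s : Fin k → ℕ) (hs : IsSpeedSet s) :
    ∃ ε₀ : ℝ, 0 < ε₀ ∧ ∀ ε, 0 < ε → ε ≤ 1 / 2 → ε ≤ ε₀ → pt k δ ε ∈ A s := by
  obtain ⟨t, hirr, ht1, ht2⟩ := two_runners_irrational δ h0 h1 hδ (s ⟨0, by omega⟩)
    (s ⟨1, by omega⟩) (hs.2 _) (hs.2 _) (fun h => by
      have := hs.1 h
      simp at this)
  have hne : (Finset.univ : Finset (Fin k)).Nonempty := ⟨⟨0, by omega⟩, Finset.mem_univ _⟩
  refine ⟨Finset.univ.inf' hne (fun i => distInt ((s i : ℝ) * t)), ?_, ?_⟩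
  · rw [Finset.lt_inf'_iff]
    intro i _
    exact distInt_pos_of_irrational hirr (hs.2 i)
  · intro ε hε hε2 hle
    refine ⟨pt_mem_box k h0 h1 hε hε2, t, ?_⟩
    intro i
    unfold pt
    split_ifs with h h'
    · have : i = ⟨0, by omega⟩ := Fin.ext h
      rw [this]; exact ht1
    · have : i = ⟨1, by omega⟩ := Fin.ext h'
      rw [this]; exact ht2
    · exact le_trans hle (Finset.inf'_le _ (Finset.mem_univ i))

/-- The point is never in `MLPS_k`. -/
lemma pt_not_mem (k : ℕ) (hk : 3 ≤ k) (δ : ℝ) (h0 : 0 < δ) (h1 : δ ≤ 1 / 8) (ε : ℝ) (hε : 0 < ε) :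
    pt k δ ε ∉ MLPS k := by
  rintro ⟨_, hall⟩
  -- Dirichlet
  obtain ⟨N, hN⟩ := exists_nat_gt (3 / ε)
  have hNpos : 0 < N := by
    have : (0 : ℝ) < N := lt_trans (by positivity) hN
    exact_mod_cast this
  obtain ⟨j, q, hq0, hqN, hq⟩ := Real.exists_int_int_abs_mul_sub_le (1 / 2 - δ) hNpos
  obtain ⟨p, rfl⟩ : ∃ p : ℕ, q = (p : ℤ) := ⟨q.toNat, by omega⟩
  have hp0 : 0 < p := by omega
  have hdist : distInt ((p : ℝ) * (1 / 2 - δ)) < ε / 3 := by
    have hNR : (0 : ℝ) < N := by exact_mod_cast hNpos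
    have h9 : 1 / ((N : ℝ) + 1) < ε / 3 := by
      rw [div_lt_iff₀ hε] at hN
      rw [div_lt_div_iff₀ (by positivity) (by norm_num)]
      nlinarith
    refine lt_of_le_of_lt (le_trans (distInt_le _ j) ?_) h9
    push_cast at hq
    exact hq
  set Q : ℕ := 3 * p with hQ
  have hdistQ : distInt ((Q : ℝ) * (1 / 2 - δ)) < ε := by
    have h := distInt_nat_mul 3 ((p : ℝ) * (1 / 2 - δ))
    have : (Q : ℝ) * (1 / 2 - δ) = ((3 : ℕ) : ℝ) * ((p : ℝ) * (1 / 2 - δ)) := by
      rw [hQ]; push_cast; ring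
    rw [this]
    push_cast at h ⊢
    linarith
  set s : Fin k → ℕ := fun i => if (i : ℕ) = 0 then 1 else if (i : ℕ) = 1 then 2 else
    Q + ((i : ℕ) - 2) with hs
  have hss : IsSpeedSet s := by
    constructor
    · intro i j hij
      simp only [hs] at hij
      apply Fin.ext
      split_ifs at hij <;> omega
    · intro i
      simp only [hs]
      split_ifs <;> omega
  obtain ⟨_, t, ht⟩ := hall s hss
  have ht0 := ht ⟨0, by omega⟩
  have ht1 := ht ⟨1, by omega⟩
  have ht2 := ht ⟨2, by omega⟩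
  simp only [pt, hs] at ht0 ht1 ht2
  norm_num at ht0 ht1 ht2
  -- normalise t
  set m : ℤ := round t with hm
  set u : ℝ := t - m with hu
  have hut : t = u + m := by rw [hu]; ring
  have hdt : distInt t = |u| := by rw [hu, hm]; rfl
  rw [hdt] at ht0
  have hu2 : |u| ≤ 1 / 2 := by rw [hu, hm]; exact abs_sub_round t
  -- 2t
  have h2t : distInt (2 * t) = distInt (2 * |u|) := by
    have e1 : 2 * t = 2 * u + ((2 * m : ℤ) : ℝ) := by rw [hut]; push_cast; ring
    rw [e1, distInt_add_int]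
    rcases abs_choice u with h | h
    · rw [h]
    · rw [h, ← distInt_neg]; congr 1; ring
  have h2t' : distInt (2 * |u|) = 1 - 2 * |u| := by
    have e1 : 2 * |u| = -(1 - 2 * |u|) + ((1 : ℤ) : ℝ) := by push_cast; ring
    rw [e1, distInt_add_int, distInt_neg]
    have e2 : (1 : ℝ) - (-(1 - 2 * |u|) + ((1 : ℤ) : ℝ)) = 1 - 2 * |u| := by push_cast; ring
    rw [e2]
    exact distInt_of_mem (by linarith) (by linarith)
  rw [h2t, h2t'] at ht1
  have hueq : |u| = 1 / 2 - δ := by linarith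
  have hQt : distInt ((Q : ℝ) * t) = distInt ((Q : ℝ) * (1 / 2 - δ)) := by
    have e1 : (Q : ℝ) * t = Q * u + (((Q : ℤ) * m : ℤ) : ℝ) := by rw [hut]; push_cast; ring
    rw [e1, distInt_add_int, ← hueq]
    rcases abs_choice u with h | h
    · rw [h]
    · rw [h, ← distInt_neg]; congr 1; ring
  rw [hQt] at ht2
  linarith

/-- For every `k ≥ 3` and every finite family `F` of speed sets of length `k`, the intersection
`⋂_{s ∈ F} A(s)` strictly contains `MLPS_k`. -/
theorem result : ∀ k : ℕ, 3 ≤ k → ∀ F : Set (Fin k → ℕ), F.Finite → (∀ s ∈ F, IsSpeedSet s) →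
    MLPS k ⊂ interA F := by
  intro k hk F hF hFs
  rw [Set.ssubset_iff_subset_ne]
  refine ⟨fun d hd => ⟨hd.1, fun s hs => hd.2 s (hFs s hs)⟩, ?_⟩
  set δ : ℝ := √2 / 16 with hδdef
  have hsq : √2 ^ 2 = 2 := Real.sq_sqrt (by norm_num)
  have hsq0 : 0 < √2 := by positivity
  have h0 : 0 < δ := by positivity
  have h1 : δ ≤ 1 / 8 := by
    rw [hδdef]
    nlinarith
  have hirr : Irrational δ := by
    rw [hδdef]
    have := irrational_sqrt_two.div_natCast (m := 16) (by norm_num)
    simpa using this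
  -- choose epsilon
  have hex : ∃ ε₀ : ℝ, 0 < ε₀ ∧ ∀ s ∈ F, ∀ ε, 0 < ε → ε ≤ 1 / 2 → ε ≤ ε₀ → pt k δ ε ∈ A s := by
    induction F, hF using Set.Finite.induction_on with
    | empty => exact ⟨1, one_pos, fun s hs => absurd hs (Set.notMem_empty s)⟩
    | @insert s F' _ _ ih =>
      obtain ⟨ε₁, hε₁, h₁⟩ := ih (fun s hs => hFs s (Set.mem_insert_of_mem _ hs))
      obtain ⟨ε₂, hε₂, h₂⟩ := exists_eps k hk δ h0 h1 hirr s (hFs s (Set.mem_insert _ _))
      refine ⟨min ε₁ ε₂, lt_min hε₁ hε₂, ?_⟩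
      intro s' hs' ε hε hε' hle
      rcases Set.mem_insert_iff.mp hs' with rfl | h
      · exact h₂ ε hε hε' (le_trans hle (min_le_right _ _))
      · exact h₁ s' h ε hε hε' (le_trans hle (min_le_left _ _))
  obtain ⟨ε₀, hε₀, hε⟩ := hex
  intro heq
  have hmem : pt k δ (min ε₀ (1 / 2)) ∈ interA F :=
    ⟨pt_mem_box k h0 h1 (lt_min hε₀ (by norm_num)) (min_le_right _ _),
      fun s hs => hε s hs _ (lt_min hε₀ (by norm_num)) (min_le_right _ _) (min_le_left _ _)⟩
  rw [← heq] at hmem
  exact pt_not_mem k hk δ h0 h1 _ (lt_min hε₀ (by norm_num)) hmem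

end Pool.Agent.Results.MP_b1d502_nt.NotFinDet
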